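import Pool.Agent.R319.RG2

/-!
# The pair correlation conjecture from one-sided bounds for far windows, without RH

The Riemann hypothesis is not assumed, only that almost all the zeros are on the critical line.
Then the pair correlation conjecture (the asymptotic formula for `N*(T, a)` for every `a > 0`) is
equivalent to one-sided bounds for the windows `[α, β]` with an error which decays exponentially in
`α`: to the upper bounds, and also to the lower bounds.
-/

open Filter Topology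

namespace Pool.Agent.R346.BG.Out.OneSidedNoRH

/-- the nontrivial zeros of zeta -/
def zeros : Set ℂ := {s : ℂ | riemannZeta s = 0 ∧ 0 < s.re ∧ s.re < 1}

/-- the nontrivial zeros of zeta with ordinate in `(0, T]` -/
def zerosTo (T : ℝ) : Set ℂ := {s : ℂ | s ∈ zeros ∧ 0 < s.im ∧ s.im ≤ T}

/-- the number of the zeros off the critical line with ordinate in `(0, T]`, with multiplicity -/
noncomputable def Noff (T : ℝ) : ℕ :=
  ∑ᶠ s ∈ {s : ℂ | s ∈ zerosTo T ∧ s.re ≠ 1 / 2}, analyticOrderNatAt riemannZeta s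

/-- the number `N*(T, a)` of ordered pairs of zeros, with ordinates `γ`, `γ'`, counted with
multiplicity, such that `0 < γ ≤ T` and `0 < γ - γ' ≤ 2πa / log T` -/
noncomputable def Nstar (T a : ℝ) : ℕ :=
  ∑ᶠ s ∈ zerosTo T, ∑ᶠ s' ∈ {s' : ℂ | s' ∈ zeros ∧ 0 < s.im - s'.im ∧
    s.im - s'.im ≤ 2 * Real.pi * a / Real.log T},
    analyticOrderNatAt riemannZeta s * analyticOrderNatAt riemannZeta s'

/-- the number of ordered pairs of zeros with ordinates `γ, γ' ∈ (0, T]`, counted with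
multiplicity, such that `α ≤ (γ - γ') log T / 2π ≤ β` -/
noncomputable def Nwin (T α β : ℝ) : ℕ :=
  ∑ᶠ s ∈ zerosTo T, ∑ᶠ s' ∈ {s' : ℂ | s' ∈ zerosTo T ∧
    α ≤ (s.im - s'.im) * Real.log T / (2 * Real.pi) ∧
    (s.im - s'.im) * Real.log T / (2 * Real.pi) ≤ β},
    analyticOrderNatAt riemannZeta s * analyticOrderNatAt riemannZeta s'

/-- the pair correlation function `1 - (sin πu / πu)²` -/
noncomputable def F (u : ℝ) : ℝ := 1 - (Real.sin (Real.pi * u) / (Real.pi * u)) ^ 2

/-- the pair correlation conjecture -/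
def PCC : Prop := ∀ a : ℝ, 0 < a →
  Tendsto (fun T : ℝ => (Nstar T a : ℝ) / (T * Real.log T)) atTop
    (𝓝 (1 / (2 * Real.pi) * ∫ u in (0 : ℝ)..a, F u))

/-- the upper bounds for the windows, with an exponentially small error -/
def UpperFar : Prop := ∃ C c : ℝ, 0 < c ∧ ∀ α β : ℝ, 0 < α → α < β → ∀ ε : ℝ, 0 < ε →
  ∀ᶠ T : ℝ in atTop, (Nwin T α β : ℝ) ≤
    ((∫ u in α..β, F u) + C * Real.exp (-(c * α)) + ε) * (T * Real.log T / (2 * Real.pi))

/-- the lower bounds for the windows, with an exponentially small error -/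
def LowerFar : Prop := ∃ C c : ℝ, 0 < c ∧ ∀ α β : ℝ, 0 < α → α < β → ∀ ε : ℝ, 0 < ε →
  ∀ᶠ T : ℝ in atTop, ((∫ u in α..β, F u) - C * Real.exp (-(c * α)) - ε) *
    (T * Real.log T / (2 * Real.pi)) ≤ (Nwin T α β : ℝ)

open Pool.Agent.Y749.Rig Pool.Agent.R319.WB Pool.Agent.R319.RG
open H370 (mult)

lemma zerosTo_finite (T : ℝ) : (zerosTo T).Finite := by
  refine (ZT T).finite_toSet.subset ?_
  rintro s ⟨⟨h1, h2, h3⟩, h4, h5⟩
  rw [Finset.mem_coe, mem_ZT]
  exact ⟨h2, h3, h4, h5, h1⟩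

lemma toFinset_eq (T : ℝ) : (zerosTo_finite T).toFinset = ZT T := by
  ext s
  rw [Set.Finite.mem_toFinset, mem_ZT]
  simp only [zerosTo, zeros, Set.mem_ofPred_eq]
  tauto

/-- a sum over a subset of `ZT T` -/
lemma inner_eq {T : ℝ} (p : ℂ → Prop) [DecidablePred p] (S : Set ℂ)
    (hS : ∀ s', s' ∈ S ↔ s' ∈ ZT T ∧ p s') (f : ℂ → ℕ) :
    ∑ᶠ s' ∈ S, f s' = ∑ s' ∈ ZT T, if p s' then f s' else 0 := by
  rw [← Finset.sum_filter, ← finsum_mem_coe_finset]
  have : S = ((ZT T).filter p : Set ℂ) := by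
    ext s'
    rw [Finset.coe_filter, hS]
    rfl
  rw [this]

lemma ZT_sub (T : ℝ) : ZT T ⊆ ZZ T := by
  intro s hs
  rw [mem_ZT] at hs
  rw [mem_ZZ]
  exact ⟨hs.2.2.2.2, hs.1, hs.2.1, hs.2.2.1.le, hs.2.2.2.1⟩

/-- real zeros do not contribute to the pairs with positive difference less than `δ` -/
lemma to_Mp {δ : ℝ} (hδ : ∀ s : ℂ, riemannZeta s = 0 → 0 < s.re → s.re < 1 → 0 < s.im →
    δ ≤ s.im) {T : ℝ} (hT : 10 ≤ T) {S : Set ℝ} (hS : MeasurableSet S)
    (hS0 : ∀ x ∈ S, 0 < x ∧ 2 * Real.pi * x / Real.log T < δ) :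
    nT T * (Mp T).real S = ∑ s ∈ ZT T, ∑ s' ∈ ZT T, mm s * mm s' *
      S.indicator (fun _ => 1) ((s.im - s'.im) * Real.log T / (2 * Real.pi)) := by
  have hn := nT_pos hT
  have hL : 0 < Real.log T := Real.log_pos (by linarith)
  have hpi := Real.pi_pos
  rw [Mp_real hT hS, mul_div_cancel₀ _ hn.ne']
  unfold RR
  refine dsum_eq (ZT_sub T) (fun s s' => mm s * mm s' *
    S.indicator (fun _ => 1) ((s.im - s'.im) * Real.log T / (2 * Real.pi))) ?_
  intro s hs s' hs' hne
  rw [mem_ZZ] at hs hs'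
  have hx : (s.im - s'.im) * Real.log T / (2 * Real.pi) ∈ S := by
    by_contra h
    apply hne
    rw [Set.indicator_of_notMem h, mul_zero]
  obtain ⟨h1, h2⟩ := hS0 _ hx
  have h3 : 2 * Real.pi * ((s.im - s'.im) * Real.log T / (2 * Real.pi)) / Real.log T =
      s.im - s'.im := by field_simp
  rw [h3] at h2
  have h4 : 0 < s.im - s'.im := by
    rw [← h3]; positivity
  have h5 : 0 < s.im := by
    have := hs'.2.2.2.1
    linarith
  have h6 := hδ s hs.1 hs.2.1 hs.2.2.1 h5
  rw [mem_ZT, mem_ZT]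
  exact ⟨⟨hs.2.1, hs.2.2.1, h5, hs.2.2.2.2, hs.1⟩, hs'.2.1, hs'.2.2.1, by linarith,
    hs'.2.2.2.2, hs'.1⟩

lemma Nwin_eq (T α β : ℝ) : (Nwin T α β : ℝ) = ∑ s ∈ ZT T, ∑ s' ∈ ZT T, mm s * mm s' *
    (Set.Icc α β).indicator (fun _ => 1) ((s.im - s'.im) * Real.log T / (2 * Real.pi)) := by
  classical
  unfold Nwin
  rw [finsum_mem_eq_finite_toFinset_sum _ (zerosTo_finite T), toFinset_eq]
  push_cast
  refine Finset.sum_congr rfl fun s _ => ?_
  rw [inner_eq (T := T) (fun s' => α ≤ (s.im - s'.im) * Real.log T / (2 * Real.pi) ∧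
    (s.im - s'.im) * Real.log T / (2 * Real.pi) ≤ β)]
  · push_cast
    refine Finset.sum_congr rfl fun s' _ => ?_
    unfold mm mult
    by_cases h : α ≤ (s.im - s'.im) * Real.log T / (2 * Real.pi) ∧
      (s.im - s'.im) * Real.log T / (2 * Real.pi) ≤ β
    · rw [if_pos h, Set.indicator_of_mem (show _ ∈ Set.Icc α β from h), mul_one]
    · rw [if_neg h, Set.indicator_of_notMem (show _ ∉ Set.Icc α β from h), mul_zero]
  · intro s'
    rw [mem_ZT]
    simp only [zerosTo, zeros, Set.mem_ofPred_eq]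
    tauto

lemma Nstar_eq {δ : ℝ} (hδ : ∀ s : ℂ, riemannZeta s = 0 → 0 < s.re → s.re < 1 → 0 < s.im →
    δ ≤ s.im) {T : ℝ} (hT : 1 < T) {a : ℝ} (ha : 2 * Real.pi * a / Real.log T < δ) :
    (Nstar T a : ℝ) = ∑ s ∈ ZT T, ∑ s' ∈ ZT T, mm s * mm s' *
    (Set.Ioc 0 a).indicator (fun _ => 1) ((s.im - s'.im) * Real.log T / (2 * Real.pi)) := by
  classical
  have hL : 0 < Real.log T := Real.log_pos hT
  have hpi := Real.pi_pos
  unfold Nstar
  rw [finsum_mem_eq_finite_toFinset_sum _ (zerosTo_finite T), toFinset_eq]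
  push_cast
  refine Finset.sum_congr rfl fun s hs => ?_
  rw [mem_ZT] at hs
  rw [inner_eq (T := T) (fun s' => 0 < s.im - s'.im ∧ s.im - s'.im ≤ 2 * Real.pi * a / Real.log T)]
  · push_cast
    refine Finset.sum_congr rfl fun s' _ => ?_
    unfold mm mult
    have hiff : (0 < s.im - s'.im ∧ s.im - s'.im ≤ 2 * Real.pi * a / Real.log T) ↔
        (s.im - s'.im) * Real.log T / (2 * Real.pi) ∈ Set.Ioc 0 a := by
      rw [Set.mem_Ioc, div_le_iff₀ (by positivity), le_div_iff₀ hL]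
      constructor
      · rintro ⟨h1, h2⟩
        exact ⟨by positivity, by linarith⟩
      · rintro ⟨h1, h2⟩
        refine ⟨?_, by linarith⟩
        by_contra h3
        push Not at h3
        have : (s.im - s'.im) * Real.log T / (2 * Real.pi) ≤ 0 :=
          div_nonpos_of_nonpos_of_nonneg (mul_nonpos_of_nonpos_of_nonneg h3 hL.le) (by positivity)
        linarith
    by_cases h : 0 < s.im - s'.im ∧ s.im - s'.im ≤ 2 * Real.pi * a / Real.log T
    · rw [if_pos h, Set.indicator_of_mem (hiff.1 h), mul_one]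
    · rw [if_neg h, Set.indicator_of_notMem (fun h2 => h (hiff.2 h2)), mul_zero]
  · intro s'
    rw [mem_ZT]
    constructor
    · rintro ⟨⟨g1, g2, g3⟩, g4, g5⟩
      have := hδ s hs.2.2.2.2 hs.1 hs.2.1 hs.2.2.1
      exact ⟨⟨g2, g3, by linarith, by linarith [hs.2.2.2.1], g1⟩, g4, g5⟩
    · rintro ⟨⟨g1, g2, g3, g4, g5⟩, g6, g7⟩
      exact ⟨⟨g5, g1, g2⟩, g6, g7⟩

/-- eventually the counts are the values of the pair measure -/
lemma ev_Nwin (α β : ℝ) (hα : 0 < α) : ∀ᶠ T : ℝ in atTop,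
    (Nwin T α β : ℝ) = nT T * (Mp T).real (Set.Icc α β) := by
  obtain ⟨δ, hδ, hord⟩ := ord_gap
  have h1 : Tendsto (fun T : ℝ => 2 * Real.pi * β / Real.log T) atTop (𝓝 0) :=
    Real.tendsto_log_atTop.const_div_atTop _
  filter_upwards [h1.eventually (gt_mem_nhds hδ), eventually_ge_atTop 10] with T h2 hT
  have hL : 0 < Real.log T := Real.log_pos (by linarith)
  rw [Nwin_eq, to_Mp hord hT measurableSet_Icc]
  intro x hx
  refine ⟨by linarith [hx.1], lt_of_le_of_lt ?_ h2⟩
  have hpi := Real.pi_pos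
  gcongr
  exact hx.2

lemma ev_Nstar (a : ℝ) : ∀ᶠ T : ℝ in atTop,
    (Nstar T a : ℝ) = nT T * (Mp T).real (Set.Ioc 0 a) := by
  obtain ⟨δ, hδ, hord⟩ := ord_gap
  have h1 : Tendsto (fun T : ℝ => 2 * Real.pi * a / Real.log T) atTop (𝓝 0) :=
    Real.tendsto_log_atTop.const_div_atTop _
  filter_upwards [h1.eventually (gt_mem_nhds hδ), eventually_ge_atTop 10] with T h2 hT
  have hL : 0 < Real.log T := Real.log_pos (by linarith)
  rw [Nstar_eq hord (by linarith) h2, to_Mp hord hT measurableSet_Ioc]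
  intro x hx
  refine ⟨hx.1, lt_of_le_of_lt ?_ h2⟩
  have hpi := Real.pi_pos
  gcongr
  exact hx.2

lemma NF_le (T : ℝ) (hT : 0 ≤ T) : NF T ≤ (Noff T : ℝ) + ∑ s ∈ ZZ 0, mm s := by
  classical
  have h1 : (Noff T : ℝ) = ∑ s ∈ (ZT T).filter (fun s => s.re ≠ 1 / 2), mm s := by
    have : Noff T = ∑ s ∈ ZT T, if s.re ≠ 1 / 2 then analyticOrderNatAt riemannZeta s else 0 := by
      unfold Noff
      apply inner_eq (T := T) (fun s => s.re ≠ 1 / 2)
      intro s
      rw [mem_ZT]
      simp only [zerosTo, zeros, Set.mem_ofPred_eq]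
      tauto
    rw [this, Finset.sum_filter]
    push_cast
    refine Finset.sum_congr rfl fun s _ => ?_
    unfold mm mult
    split_ifs <;> simp
  rw [h1]
  unfold NF
  have hsub : (ZZ T).filter (fun s => s.re ≠ 1 / 2) ⊆
      (ZT T).filter (fun s => s.re ≠ 1 / 2) ∪ ZZ 0 := by
    intro s hs
    rw [Finset.mem_filter, mem_ZZ] at hs
    obtain ⟨⟨a5, a1, a2, a3, a4⟩, hre⟩ := hs
    rw [Finset.mem_union, Finset.mem_filter, mem_ZT, mem_ZZ]
    rcases a3.eq_or_lt with h | h
    · right; exact ⟨a5, a1, a2, a3, h.symm.le⟩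
    · left; exact ⟨⟨a1, a2, h, a4, a5⟩, hre⟩
  refine (Finset.sum_le_sum_of_subset_of_nonneg hsub fun s _ _ => mm_nonneg s).trans ?_
  have h2 := Finset.sum_union_inter (s₁ := (ZT T).filter (fun s => s.re ≠ 1 / 2)) (s₂ := ZZ 0)
    (f := mm)
  have h3 : 0 ≤ ∑ s ∈ (ZT T).filter (fun s => s.re ≠ 1 / 2) ∩ ZZ 0, mm s :=
    Finset.sum_nonneg fun s _ => mm_nonneg s
  linarith

/-- from one-sided bounds to the conjecture -/
lemma forward (h : Tendsto (fun T : ℝ => (Noff T : ℝ) / (T * Real.log T)) atTop (𝓝 0))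
    (hf : UpperFar ∨ LowerFar) : PCC := by
  have hoff : ∀ η : ℝ, 0 < η → ∀ᶠ T : ℝ in atTop, NF T ≤ η * (T * Real.log T) := by
    intro η hη
    have h1 := h.eventually (gt_mem_nhds (show 0 < η / 2 by positivity))
    have h2 : Tendsto (fun T : ℝ => T * Real.log T) atTop atTop :=
      tendsto_id.atTop_mul_atTop₀ Real.tendsto_log_atTop
    filter_upwards [h1, eventually_ge_atTop 10,
      h2.eventually_ge_atTop ((∑ s ∈ ZZ 0, mm s) / (η / 2))] with T h3 hT h4
    have hL : 0 < Real.log T := Real.log_pos (by linarith)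
    rw [div_lt_iff₀ (by positivity)] at h3
    rw [div_le_iff₀ (by positivity)] at h4
    have := NF_le T (by linarith)
    linarith
  have hpi := Real.pi_pos
  have key : ∀ C : ℝ, ∀ c : ℝ, 0 < c → ((∀ α β : ℝ, 0 < α → α < β → ∀ ε : ℝ, 0 < ε →
      ∀ᶠ T in atTop, (Mp T).real (Set.Icc α β) ≤ (∫ x in α..β, FF x) +
      max C 0 * Real.exp (-(c * α)) + ε) ∨
      (∀ α β : ℝ, 0 < α → α < β → ∀ ε : ℝ, 0 < ε → ∀ᶠ T in atTop,
      (∫ x in α..β, FF x) - max C 0 * Real.exp (-(c * α)) - ε ≤ (Mp T).real (Set.Icc α β))) →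
      PCC := by
    intro C c hc ho a ha
    have h1 := to_zero hoff (le_max_right C 0) hc ho a ha
    have h2 := h1.const_mul (1 / (2 * Real.pi))
    refine h2.congr' ?_
    filter_upwards [ev_Nstar a, eventually_ge_atTop 10] with T h3 hT
    have hL : 0 < Real.log T := Real.log_pos (by linarith)
    rw [h3]
    unfold nT
    field_simp
  rcases hf with ⟨C, c, hc, hf⟩ | ⟨C, c, hc, hf⟩
  · refine key C c hc (Or.inl ?_)
    intro α β hα hαβ ε hε
    filter_upwards [hf α β hα hαβ ε hε, ev_Nwin α β hα, eventually_ge_atTop 10] with T h1 h2 hT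
    have hn := nT_pos hT
    rw [h2] at h1
    have h3 : (Mp T).real (Set.Icc α β) ≤ (∫ u in α..β, F u) + C * Real.exp (-(c * α)) + ε := by
      have e : T * Real.log T / (2 * Real.pi) = nT T := rfl
      rw [e, mul_comm] at h1
      exact le_of_mul_le_mul_right h1 hn
    have h4 : C * Real.exp (-(c * α)) ≤ max C 0 * Real.exp (-(c * α)) :=
      mul_le_mul_of_nonneg_right (le_max_left _ _) (Real.exp_pos _).le
    have e2 : ∫ u in α..β, F u = ∫ u in α..β, FF u := rfl
    rw [e2] at h3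
    linarith
  · refine key C c hc (Or.inr ?_)
    intro α β hα hαβ ε hε
    filter_upwards [hf α β hα hαβ ε hε, ev_Nwin α β hα, eventually_ge_atTop 10] with T h1 h2 hT
    have hn := nT_pos hT
    rw [h2] at h1
    have h3 : (∫ u in α..β, F u) - C * Real.exp (-(c * α)) - ε ≤ (Mp T).real (Set.Icc α β) := by
      have e : T * Real.log T / (2 * Real.pi) = nT T := rfl
      rw [e, mul_comm (nT T)] at h1
      exact le_of_mul_le_mul_right h1 hn
    have h4 : C * Real.exp (-(c * α)) ≤ max C 0 * Real.exp (-(c * α)) :=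
      mul_le_mul_of_nonneg_right (le_max_left _ _) (Real.exp_pos _).le
    have e2 : ∫ u in α..β, F u = ∫ u in α..β, FF u := rfl
    rw [e2] at h3
    linarith

/-- the conjecture in terms of the windows -/
lemma windows (h : PCC) : ∀ α β : ℝ, 0 < α → α < β → ∀ ε : ℝ, 0 < ε → ∀ᶠ T : ℝ in atTop,
    |(Nwin T α β : ℝ) - (∫ u in α..β, F u) * (T * Real.log T / (2 * Real.pi))| ≤
      ε * (T * Real.log T / (2 * Real.pi)) := by
  intro α β hα hαβ ε hε
  have hpi := Real.pi_pos
  have hlim : ∀ a : ℝ, 0 < a → ∀ η : ℝ, 0 < η → ∀ᶠ T : ℝ in atTop,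
      |(Mp T).real (Set.Ioc 0 a) - ∫ u in (0 : ℝ)..a, F u| < η := by
    intro a ha η hη
    have h1 := (h a ha).const_mul (2 * Real.pi)
    have h2 : Tendsto (fun T => (Mp T).real (Set.Ioc 0 a)) atTop
        (𝓝 (2 * Real.pi * (1 / (2 * Real.pi) * ∫ u in (0 : ℝ)..a, F u))) := by
      refine h1.congr' ?_
      filter_upwards [ev_Nstar a, eventually_ge_atTop 10] with T h3 hT
      have hL : 0 < Real.log T := Real.log_pos (by linarith)
      rw [h3]
      unfold nT
      field_simp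
    have e : 2 * Real.pi * (1 / (2 * Real.pi) * ∫ u in (0 : ℝ)..a, F u) =
        ∫ u in (0 : ℝ)..a, F u := by field_simp
    rw [e] at h2
    have h3 := (Metric.tendsto_nhds.1 h2) η hη
    filter_upwards [h3] with T hT
    rwa [Real.dist_eq] at hT
  set α' := max (α / 2) (α - ε / 4) with hα'
  have hα'0 : 0 < α' := lt_of_lt_of_le (by positivity) (le_max_left _ _)
  have hα'1 : α' < α := max_lt (by linarith) (by linarith)
  have hα'2 : α - ε / 4 ≤ α' := le_max_right _ _
  have hint : ∀ x y : ℝ, IntervalIntegrable F MeasureTheory.volume x y := fun x y => FF_ii x y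
  have hsm : ∫ u in α'..α, F u ≤ ε / 4 := by
    have := intervalIntegral.integral_mono_on (g := fun _ => (1 : ℝ)) hα'1.le (hint _ _)
      (continuous_const.intervalIntegrable _ _) fun u _ => FF_le_one u
    rw [intervalIntegral.integral_const, smul_eq_mul, mul_one] at this
    linarith
  filter_upwards [hlim β (hα.trans hαβ) (ε / 4) (by positivity), hlim α hα (ε / 4) (by positivity),
    hlim α' hα'0 (ε / 4) (by positivity), ev_Nwin α β hα, eventually_ge_atTop 10]
    with T h1 h2 h3 h4 hT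
  have hfin := Mp_fin T
  have hn := nT_pos hT
  rw [h4]
  have e : T * Real.log T / (2 * Real.pi) = nT T := rfl
  rw [e]
  have s1 : ∫ u in (0 : ℝ)..β, F u = (∫ u in (0 : ℝ)..α, F u) + ∫ u in α..β, F u := by
    rw [intervalIntegral.integral_add_adjacent_intervals (hint _ _) (hint _ _)]
  have s2 : ∫ u in (0 : ℝ)..α, F u = (∫ u in (0 : ℝ)..α', F u) + ∫ u in α'..α, F u := by
    rw [intervalIntegral.integral_add_adjacent_intervals (hint _ _) (hint _ _)]
  have m1 : (Mp T).real (Set.Ioc 0 β) ≤ (Mp T).real (Set.Ioc 0 α) + (Mp T).real (Set.Icc α β) := by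
    refine (MeasureTheory.measureReal_mono ?_).trans (MeasureTheory.measureReal_union_le _ _)
    intro x hx
    rcases le_total x α with h | h
    · left; exact ⟨hx.1, h⟩
    · right; exact ⟨h, hx.2⟩
  have m2 : (Mp T).real (Set.Ioc 0 α') + (Mp T).real (Set.Icc α β) ≤ (Mp T).real (Set.Ioc 0 β) := by
    rw [← MeasureTheory.measureReal_union _ measurableSet_Icc]
    · refine MeasureTheory.measureReal_mono ?_
      rintro x (⟨g1, g2⟩ | ⟨g1, g2⟩)
      · exact ⟨g1, by linarith⟩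
      · exact ⟨by linarith, g2⟩
    · rw [Set.disjoint_left]
      rintro x ⟨g1, g2⟩ ⟨g3, g4⟩
      linarith
  rw [abs_lt] at h1 h2 h3
  have g1 : |(Mp T).real (Set.Icc α β) - ∫ u in α..β, F u| ≤ ε := by
    rw [abs_le]
    constructor
    · linarith [h1.1, h2.2]
    · linarith [h1.2, h3.1]
  have e3 : nT T * (Mp T).real (Set.Icc α β) - (∫ u in α..β, F u) * nT T =
      nT T * ((Mp T).real (Set.Icc α β) - ∫ u in α..β, F u) := by ring
  rw [e3, abs_mul, abs_of_pos hn, mul_comm]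
  exact mul_le_mul_of_nonneg_right g1 hn.le

/-- **The pair correlation conjecture and one-sided bounds for far windows, without RH.** -/
theorem result (h : Tendsto (fun T : ℝ => (Noff T : ℝ) / (T * Real.log T)) atTop (𝓝 0)) :
    (PCC ↔ UpperFar) ∧ (PCC ↔ LowerFar) := by
  refine ⟨⟨fun hp => ?_, fun hf => forward h (Or.inl hf)⟩,
    ⟨fun hp => ?_, fun hf => forward h (Or.inr hf)⟩⟩
  · refine ⟨0, 1, one_pos, fun α β hα hαβ ε hε => ?_⟩
    filter_upwards [windows hp α β hα hαβ ε hε] with T h1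
    have := (abs_le.1 h1).2
    rw [zero_mul, add_zero, add_mul]
    linarith
  · refine ⟨0, 1, one_pos, fun α β hα hαβ ε hε => ?_⟩
    filter_upwards [windows hp α β hα hαβ ε hε] with T h1
    have := (abs_le.1 h1).1
    rw [zero_mul, sub_zero, sub_mul]
    linarith

end Pool.Agent.R346.BG.Out.OneSidedNoRH
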