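import Pool.Agent.Y744.PCR.Glue

/-!
# One-sided bounds for distant pairs of zeros imply the pair correlation conjecture

Assume the Riemann hypothesis.  Let `D(T; α, β)` be the difference between the normalised number of
pairs `N(T; α, β) / ((T/2π) log T)` and the value predicted by Montgomery.  Fix two lengths whose
ratio is irrational.  Then Montgomery's conjecture (for all windows, near or far, and both its
upper and its lower half) is equivalent to a one-sided bound, an upper bound or a lower bound, for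
each of the two lengths, for the windows `[a, a + ℓ]` with `a` large, and even with an error
`C exp (-c a)` that does not tend to zero with `T`.  The equivalence holds for `T → ∞` and along
every sequence of values of `T`.  A one-sided bound for a single length `ℓ` already bounds the
discrepancy of every window by `(π² / 9) ℓ³`.
-/

open Filter Topology

namespace Pool.Agent.R346.BG.Out.OneSidedPairs

/-- the nontrivial zeros of `ζ` with ordinate in `(0, T]` -/
def zeros (T : ℝ) : Set ℂ :=
  {s : ℂ | 0 < s.re ∧ s.re < 1 ∧ 0 < s.im ∧ s.im ≤ T ∧ riemannZeta s = 0}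

/-- the multiplicity of `s` as a zero of `ζ` -/
noncomputable def mult (s : ℂ) : ℕ := analyticOrderNatAt riemannZeta s

/-- `N(T; α, β)`: the number of ordered pairs of zeros (counted with multiplicity, the diagonal
included) with ordinates in `(0, T]` whose difference lies in `[2πα / log T, 2πβ / log T]` -/
noncomputable def N (T α β : ℝ) : ℕ :=
  ∑ᶠ s ∈ zeros T, ∑ᶠ s' ∈ {s' : ℂ | s' ∈ zeros T ∧
    2 * Real.pi * α / Real.log T ≤ s.im - s'.im ∧ s.im - s'.im ≤ 2 * Real.pi * β / Real.log T},
      mult s * mult s'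

/-- the constant predicted by Montgomery, `∫_α^β (1 - (sin πu / πu)²) du + δ(α, β)` -/
noncomputable def P (α β : ℝ) : ℝ :=
  (∫ u in α..β, (1 - (Real.sin (Real.pi * u) / (Real.pi * u)) ^ 2)) +
    if α ≤ 0 ∧ 0 ≤ β then 1 else 0

/-- `X(T) = (T / 2π) log T` -/
noncomputable def X (T : ℝ) : ℝ := T / (2 * Real.pi) * Real.log T

/-- the discrepancy `D(T; α, β) = N(T; α, β) / X(T) - P(α, β)` -/
noncomputable def D (T α β : ℝ) : ℝ := N T α β / X T - P α β

/-- Montgomery's conjecture along the filter `F` of values of `T` (for `F = atTop` it is the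
conjecture itself) -/
def Montgomery (F : Filter ℝ) : Prop := ∀ α β : ℝ, α < β →
  Asymptotics.IsEquivalent F (fun T => (N T α β : ℝ)) (fun T => P α β * X T)

/-- the one-sided bound for distant windows of length `ℓ`: for some `C, c, A > 0` and every
`a ≥ A` one has `s D(T; a, a + ℓ) ≤ C exp (-c a) + o(1)` along `F`.  For `s = 1` it is an upper bound
for `D`, for `s = -1` a lower bound. -/
def OneSided (F : Filter ℝ) (ℓ s : ℝ) : Prop := ∃ C c A : ℝ, 0 < C ∧ 0 < c ∧ 0 < A ∧
  ∀ a : ℝ, A ≤ a → ∀ ε : ℝ, 0 < ε → ∀ᶠ T in F, s * D T a (a + ℓ) ≤ C * Real.exp (-(c * a)) + ε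

/-- **Theorem.**  Assume the Riemann hypothesis and let `F` be a filter finer than `T → ∞` (for
instance `T → ∞` itself, or a sequence of values of `T`).  (1) If `ℓ₁ / ℓ₂` is irrational and each
of `s₁`, `s₂` is `1` or `-1`, then Montgomery's conjecture along `F` is equivalent to the two
one-sided bounds for the distant windows of lengths `ℓ₁` and `ℓ₂`.  (2) A one-sided bound for the
distant windows of one length `ℓ` implies `|D(T; α, β)| ≤ (π² / 9) ℓ³ + o(1)` for all `α < β`. -/
theorem result (hRH : RiemannHypothesis) (F : Filter ℝ) (hF : F ≤ atTop) :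
    (∀ ℓ₁ ℓ₂ s₁ s₂ : ℝ, 0 < ℓ₁ → 0 < ℓ₂ → Irrational (ℓ₁ / ℓ₂) → (s₁ = 1 ∨ s₁ = -1) →
      (s₂ = 1 ∨ s₂ = -1) → (Montgomery F ↔ OneSided F ℓ₁ s₁ ∧ OneSided F ℓ₂ s₂)) ∧
    (∀ ℓ s : ℝ, 0 < ℓ → (s = 1 ∨ s = -1) → OneSided F ℓ s → ∀ α β : ℝ, α < β →
      ∀ ε : ℝ, 0 < ε → ∀ᶠ T in F, |D T α β| ≤ Real.pi ^ 2 / 9 * ℓ ^ 3 + ε) :=
  Pool.Agent.Y744.G.main hRH F hF

end Pool.Agent.R346.BG.Out.OneSidedPairs
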